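import Mathlib
import Pool.Agent.Lib.helper28.BmoA

open MeasureTheory Set Filter Topology

namespace Pool.Agent.Results.MP_9d555c_an.Yes

/-- Euclidean space. -/
abbrev E (n : ℕ) := EuclideanSpace ℝ (Fin n)

/-- The homogeneous kernel. -/
noncomputable def ker {n : ℕ} (Ω : E n → ℂ) (z : E n) : ℂ := Ω (‖z‖⁻¹ • z) / ((‖z‖ ^ n : ℝ) : ℂ)

/-- The truncated integrals converge absolutely and tend to `v`. -/
def IsPV {n : ℕ} (Ω : E n → ℂ) (g : E n → ℝ) (x : E n) (v : ℂ) : Prop :=
  (∀ ε : ℝ, 0 < ε → IntegrableOn (fun y => ker Ω (x - y) * (g y : ℂ)) {y | ε < ‖x - y‖}) ∧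
    Tendsto (fun ε : ℝ => ∫ y in {y | ε < ‖x - y‖}, ker Ω (x - y) * (g y : ℂ)) (𝓝[>] 0) (𝓝 v)

/-- The difference of the operator and its conjugate has norm at most `δ` on `L²`. -/
def NormLe {n : ℕ} (Ω : E n → ℂ) (β : E n → ℝ) (δ : ℝ) : Prop :=
  ∀ f : E n → ℝ, AEStronglyMeasurable f volume → (∃ M : ℝ, ∀ x, |f x| ≤ M) →
    HasCompactSupport f →
    ∃ F G : E n → ℂ,
      (∀ᵐ x, IsPV Ω f x (F x) ∧ IsPV Ω (fun y => Real.exp (β y) * f y) x (G x)) ∧
      MemLp (fun x => F x - (Real.exp (-β x) : ℂ) * G x) 2 volume ∧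
      eLpNorm (fun x => F x - (Real.exp (-β x) : ℂ) * G x) 2 volume
        ≤ ENNReal.ofReal δ * eLpNorm f 2 volume

/-- The closed cube with centre `c`, side `2 r` and edges along the orthonormal basis `b`. -/
def cube {n : ℕ} (b : OrthonormalBasis (Fin n) ℝ (E n)) (c : E n) (r : ℝ) : Set (E n) :=
  {x | ∀ i, |inner ℝ (b i) (x - c)| ≤ r}

lemma pv_eq {n : ℕ} {Ω : E n → ℂ} {g g' : E n → ℝ} {x : E n} {v : ℂ} {S : Set (E n)}
    (hS : MeasurableSet S) {τ : ℝ} (hτ : 0 < τ) (hx : ∀ y ∈ S, τ ≤ ‖x - y‖)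
    (hg : ∀ y ∈ S, g y = g' y) (hg0 : ∀ y ∉ S, g y = 0) (h : IsPV Ω g x v) :
    IntegrableOn (fun y => ker Ω (x - y) * (g' y : ℂ)) S ∧
      v = ∫ y in S, ker Ω (x - y) * (g' y : ℂ) := by
  have hsub : ∀ ε < τ, S ⊆ {y | ε < ‖x - y‖} := fun ε hε y hy => lt_of_lt_of_le hε (hx y hy)
  constructor
  · refine ((h.1 (τ / 2) (by positivity)).mono_set (hsub _ (by linarith))).congr_fun ?_ hS
    intro y hy; simp only [hg y hy]
  · refine tendsto_nhds_unique h.2 (tendsto_const_nhds.congr' ?_)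
    filter_upwards [Ioo_mem_nhdsGT hτ] with ε hε
    have hm : MeasurableSet {y : E n | ε < ‖x - y‖} :=
      (isOpen_lt continuous_const (by fun_prop)).measurableSet
    rw [setIntegral_eq_of_subset_of_forall_sdiff_eq_zero hm (hsub ε hε.2)]
    · exact setIntegral_congr_fun hS fun y hy => by simp only [hg y hy]
    · intro y hy; simp [hg0 y hy.2]

lemma hyp_of {n : ℕ} {Ω : E n → ℂ} {β : E n → ℝ} {δ : ℝ} (hδ : 0 ≤ δ) (H : NormLe Ω β δ)
    {S T : Set (E n)} (hS : MeasurableSet S) (hT : MeasurableSet T) {m : ℝ} (hm : 0 < m)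
    (hSm : volume S = ENNReal.ofReal m) (hTm : volume T = ENNReal.ofReal m)
    {c : E n} {R : ℝ} (hSR : S ⊆ Metric.closedBall c R) {τ : ℝ} (hτ : 0 < τ)
    (hx : ∀ x ∈ T, ∀ y ∈ S, τ ≤ ‖x - y‖) :
    H28Bmo.Hyp volume S T (fun x y => ker Ω (x - y)) (fun y => Real.exp (β y)) (δ * m) := by
  intro f hf hf1
  obtain ⟨F, G, hFG, hD, hN⟩ := H (S.indicator f) ((aestronglyMeasurable_indicator_iff hS).2 hf)
    ⟨1, fun x => by by_cases h : x ∈ S <;> simp [h, hf1 x]⟩
    (HasCompactSupport.intro (isCompact_closedBall c R) fun x hx =>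
      indicator_of_notMem (fun h => hx (hSR h)) _)
  have hTf : volume T ≠ ⊤ := by rw [hTm]; simp
  haveI : IsFiniteMeasure (volume.restrict T) := isFiniteMeasure_restrict.2 hTf
  set D := fun x => F x - (Real.exp (-β x) : ℂ) * G x with hDdef
  have hDi : IntegrableOn D T := (hD.restrict T).integrable (by norm_num)
  refine ⟨D, hDi, ?_, ?_⟩
  · have h1 : eLpNorm D 1 (volume.restrict T) ≤
        eLpNorm D 2 (volume.restrict T) * (volume.restrict T) univ ^ (1 / (1:ENNReal).toReal - 1 / (2:ENNReal).toReal) :=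
      eLpNorm_le_eLpNorm_mul_rpow_measure_univ (by norm_num) hDi.1
    have h2 : eLpNorm D 2 (volume.restrict T) ≤ eLpNorm D 2 volume :=
      eLpNorm_mono_measure _ Measure.restrict_le_self
    have h3 : eLpNorm (S.indicator f) 2 volume ≤
        (volume.restrict S) univ ^ (2:ENNReal).toReal⁻¹ * ENNReal.ofReal 1 := by
      rw [eLpNorm_indicator_eq_eLpNorm_restrict hS]
      exact eLpNorm_le_of_ae_bound (Eventually.of_forall fun y => by simpa using hf1 y)
    have h4 : eLpNorm D 1 (volume.restrict T) ≤ ENNReal.ofReal (δ * m) := by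
      refine h1.trans ?_
      have h5 := h2.trans (hN.trans (mul_le_mul_right h3 _))
      refine (mul_le_mul_left h5 _).trans (le_of_eq ?_)
      simp only [Measure.restrict_apply_univ, hSm, hTm, ENNReal.toReal_ofNat, ENNReal.toReal_one,
        ENNReal.ofReal_one, mul_one]
      rw [mul_assoc, ← ENNReal.rpow_add _ _ (by simpa using hm) (by simp), ENNReal.ofReal_mul hδ]
      norm_num
    rw [eLpNorm_one_eq_lintegral_enorm, ← ofReal_integral_norm_eq_lintegral_enorm hDi] at h4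
    exact (ENNReal.ofReal_le_ofReal_iff (by positivity)).1 h4
  · filter_upwards [ae_restrict_of_ae hFG, ae_restrict_mem hT] with x hx1 hxT
    have a1 := pv_eq hS hτ (hx x hxT) (g' := f) (fun y hy => indicator_of_mem hy _)
      (fun y hy => indicator_of_notMem hy _) hx1.1
    have a2 := pv_eq hS hτ (hx x hxT) (g' := fun y => Real.exp (β y) * f y)
      (fun y hy => by simp only [indicator_of_mem hy])
      (fun y hy => by simp only [indicator_of_notMem hy, mul_zero]) hx1.2
    refine ⟨a1.1, a2.1, ?_⟩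
    simp only [hDdef]
    rw [a1.2, a2.2, Real.exp_neg]

lemma ker_smul {n : ℕ} (Ω : E n → ℂ) (z : E n) {t : ℝ} (ht : 0 < t) :
    ker Ω (t • z) = ker Ω z / ((t ^ n : ℝ) : ℂ) := by
  unfold ker
  rw [norm_smul, Real.norm_eq_abs, abs_of_pos ht, smul_smul]
  have : (t * ‖z‖)⁻¹ * t = ‖z‖⁻¹ := by
    rw [mul_inv, mul_comm t⁻¹, mul_assoc, inv_mul_cancel₀ ht.ne', mul_one]
  rw [this, mul_pow, div_div]
  push_cast
  ring

lemma ker_cont {n : ℕ} {Ω : E n → ℂ} (hΩ : ContinuousOn Ω (Metric.sphere 0 1)) {z : E n}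
    (hz : z ∈ Metric.sphere (0 : E n) 1) : ContinuousAt (ker Ω) z := by
  have hz1 : ‖z‖ = 1 := by simpa using hz
  have h0 : ∀ᶠ w in 𝓝 z, w ≠ 0 := isOpen_ne.mem_nhds (by rintro rfl; simp at hz1)
  have h1 : ContinuousAt (fun w : E n => ‖w‖⁻¹ • w) z :=
    (continuous_norm.continuousAt.inv₀ (by simp [hz1])).smul continuousAt_id
  have h2 : Tendsto (fun w : E n => ‖w‖⁻¹ • w) (𝓝 z) (𝓝[Metric.sphere 0 1] z) := by
    refine tendsto_nhdsWithin_iff.2 ⟨by simpa [ContinuousAt, hz1] using h1, ?_⟩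
    filter_upwards [h0] with w hw
    simp [norm_smul, hw]
  have h3 : ContinuousAt (fun w : E n => Ω (‖w‖⁻¹ • w)) z := by
    have := (hΩ z hz).tendsto.comp h2
    simpa [ContinuousAt, hz1, Function.comp_def] using this
  refine h3.div (by fun_prop) (by simp [hz1])

lemma cube_meas {n : ℕ} (b : OrthonormalBasis (Fin n) ℝ (E n)) (c : E n) (r : ℝ) :
    MeasurableSet (cube b c r) := by
  have : cube b c r = ⋂ i, {x | |inner ℝ (b i) (x - c)| ≤ r} := by
    ext x; simp [cube]
  rw [this]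
  exact (isClosed_iInter fun i => isClosed_le (by fun_prop) continuous_const).measurableSet

lemma ball_sub {n : ℕ} (b : OrthonormalBasis (Fin n) ℝ (E n)) (c : E n) (r : ℝ) :
    Metric.ball c r ⊆ cube b c r := fun x hx i => by
  have h1 := abs_real_inner_le_norm (b i) (x - c)
  rw [b.orthonormal.1 i, one_mul] at h1
  have : ‖x - c‖ < r := by simpa [dist_eq_norm] using hx
  linarith

lemma sub_ball {n : ℕ} (b : OrthonormalBasis (Fin n) ℝ (E n)) (c : E n) {r : ℝ} (hr : 0 < r) :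
    cube b c r ⊆ Metric.closedBall c ((n + 1) * r) := fun x hx => by
  rw [Metric.mem_closedBall, dist_eq_norm]
  have h1 := b.sum_repr' (x - c)
  rw [← h1]
  refine (norm_sum_le _ _).trans ?_
  have : ∑ i, ‖inner ℝ (b i) (x - c) • b i‖ ≤ ∑ _i : Fin n, r := by
    refine Finset.sum_le_sum fun i _ => ?_
    rw [norm_smul, b.orthonormal.1 i, mul_one]; exact hx i
  simp only [Finset.sum_const, Finset.card_univ, Fintype.card_fin, nsmul_eq_mul] at this
  linarith

lemma cube_vol {n : ℕ} (b : OrthonormalBasis (Fin n) ℝ (E n)) (c v : E n) (r : ℝ) :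
    volume (cube b (c + v) r) = volume (cube b c r) := by
  have : cube b (c + v) r = (fun x => x + (-v)) ⁻¹' cube b c r := by
    ext x; simp only [cube, mem_ofPred_eq, mem_preimage]
    rw [show x - (c + v) = x + -v - c by abel]
  rw [this, measure_preimage_add_right]

theorem result (n : ℕ) (Ω : E n → ℂ) (hΩ : ContinuousOn Ω (Metric.sphere 0 1))
    (hne : ∃ z ∈ Metric.sphere (0 : E n) 1, Ω z ≠ 0) (ε : ℝ) (hε : 0 < ε) :
    ∃ δ : ℝ, 0 < δ ∧ ∀ β : E n → ℝ, LocallyIntegrable β volume → NormLe Ω β δ →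
      ∀ (b : OrthonormalBasis (Fin n) ℝ (E n)) (c : E n) (r : ℝ), 0 < r →
        ⨍ x in cube b c r, |β x - ⨍ y in cube b c r, β y| ≤ ε := by
  obtain ⟨z, hz, hz0⟩ := hne
  have hz1 : ‖z‖ = 1 := by simpa using hz
  have hkz : ker Ω z = Ω z := by simp [ker, hz1]
  set η := min (ε / 12) (1 / 4) with hη
  have hη0 : 0 < η := by positivity
  have hη1 : η ≤ ε / 12 := min_le_left _ _
  have hη2 : η ≤ 1 / 4 := min_le_right _ _
  have hΩp : 0 < ‖Ω z‖ := norm_pos_iff.2 hz0
  obtain ⟨ρ', hρ', hρ⟩ := Metric.continuousAt_iff.1 (ker_cont hΩ hz) (η / 16 * ‖Ω z‖)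
    (by positivity)
  set ρ := min (ρ' / 2) (1 / 2) with hρdef
  have hρ0 : 0 < ρ := by positivity
  have hρ1 : ρ < ρ' := lt_of_le_of_lt (min_le_left _ _) (by linarith)
  have hρ2 : ρ ≤ 1 / 2 := min_le_right _ _
  set V := (volume (Metric.ball (0 : E n) 1)).toReal with hV
  have hV0 : 0 < V := ENNReal.toReal_pos (Metric.measure_ball_pos _ _ one_pos).ne'
    measure_ball_lt_top.ne
  set κ := ‖Ω z‖ * (ρ / (2 * (n + 1))) ^ n * V with hκ
  have hκ0 : 0 < κ := by positivity
  refine ⟨η * κ / 8, by positivity, fun β hβ H b c r hr => ?_⟩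
  set t := 2 * ((n + 1) * r) / ρ with ht
  have ht0 : 0 < t := by positivity
  set m := (volume (cube b c r)).toReal with hm
  have hfin : volume (cube b c r) ≠ ⊤ :=
    ((measure_mono (sub_ball b c hr)).trans_lt measure_closedBall_lt_top).ne
  have hPm : volume (cube b c r) = ENNReal.ofReal m := (ENNReal.ofReal_toReal hfin).symm
  have hmV : r ^ n * V ≤ m := by
    have h1 := ENNReal.toReal_mono hfin (measure_mono (ball_sub b c r))
    rw [Measure.addHaar_ball_of_pos _ _ hr, ENNReal.toReal_mul, ENNReal.toReal_ofReal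
      (by positivity)] at h1
    simpa using h1
  have hm0 : 0 < m := lt_of_lt_of_le (by positivity) hmV
  set K : ℂ := Ω z / ((t ^ n : ℝ) : ℂ) with hK
  have hKn : ‖K‖ = ‖Ω z‖ / t ^ n := by
    rw [hK, norm_div, Complex.norm_real, Real.norm_eq_abs, abs_of_pos (by positivity)]
  have hKm : κ ≤ ‖K‖ * m := by
    have : κ = ‖K‖ * (r ^ n * V) := by
      rw [hKn, hκ]
      have : ρ / (2 * (n + 1)) = r / t := by rw [ht]; field_simp
      rw [this, div_pow]; ring
    rw [this]; exact mul_le_mul_of_nonneg_left hmV (norm_nonneg _)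
  have hum : AEStronglyMeasurable (fun y => Real.exp (β y)) volume :=
    Real.continuous_exp.comp_aestronglyMeasurable hβ.aestronglyMeasurable
  have main : ∀ c' : E n, volume (cube b c' r) = ENNReal.ofReal m →
      ∃ a > 0, IntegrableOn (fun y => Real.exp (β y)) (cube b c' r) ∧
        IntegrableOn (fun x => |1 - a / Real.exp (β x)|) (cube b (c' + t • z) r) ∧
        ∫ x in cube b (c' + t • z) r, |1 - a / Real.exp (β x)| ≤ η * m ∧
        ∫ x in cube b c' r, |1 - Real.exp (β x) / a| ≤ η * m := by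
    intro c' hc'
    have hgeo : ∀ x ∈ cube b (c' + t • z) r, ∀ y ∈ cube b c' r,
        ∃ w : E n, dist w z ≤ ρ ∧ x - y = t • w := by
      intro x hx y hy
      have h1 := sub_ball b _ hr hx
      have h2 := sub_ball b _ hr hy
      rw [Metric.mem_closedBall, dist_eq_norm] at h1 h2
      refine ⟨t⁻¹ • (x - y), ?_, by rw [smul_smul, mul_inv_cancel₀ ht0.ne', one_smul]⟩
      have e : t⁻¹ • (x - y) - z = t⁻¹ • ((x - (c' + t • z)) - (y - c')) := by
        rw [show (x - (c' + t • z)) - (y - c') = (x - y) - t • z by abel, smul_sub t⁻¹ (x - y),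
          smul_smul, inv_mul_cancel₀ ht0.ne', one_smul]
      rw [dist_eq_norm, e, norm_smul, Real.norm_eq_abs, abs_of_pos (inv_pos.2 ht0),
        inv_mul_le_iff₀ ht0]
      have : t * ρ = 2 * ((n + 1) * r) := by rw [ht]; field_simp
      linarith [norm_sub_le (x - (c' + t • z)) (y - c')]
    have hT : volume (cube b (c' + t • z) r) = ENNReal.ofReal m := by rw [cube_vol, hc']
    have hyp := hyp_of (by positivity) H (cube_meas b c' r) (cube_meas b (c' + t • z) r) hm0 hc' hT
      (sub_ball b c' hr) (τ := t / 2) (by positivity) (fun x hx y hy => by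
        obtain ⟨w, hw, e⟩ := hgeo x hx y hy
        rw [e, norm_smul, Real.norm_eq_abs, abs_of_pos ht0]
        have h1 : ‖z‖ ≤ ‖w‖ + dist w z := by
          rw [dist_comm, dist_eq_norm]
          calc ‖z‖ = ‖w + (z - w)‖ := by rw [add_sub_cancel]
            _ ≤ _ := norm_add_le _ _
        nlinarith)
    obtain ⟨a, ha, i1, i2, i3, i4⟩ := H28Bmo.pair (cube_meas b c' r)
      (cube_meas b (c' + t • z) r) hm0 hc' hT (e := η / 16) hκ0 (by positivity) hKm
      (by positivity) (by linarith) (fun y => Real.exp_pos _) hum (fun x hx y hy => by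
        obtain ⟨w, hw, e⟩ := hgeo x hx y hy
        have h1 := hρ (lt_of_le_of_lt hw hρ1)
        rw [dist_eq_norm, hkz] at h1
        show ‖ker Ω (x - y) - K‖ ≤ _
        rw [e, ker_smul _ _ ht0, hKn, hK, ← sub_div, norm_div, Complex.norm_real,
          Real.norm_eq_abs, abs_of_pos (by positivity), ← mul_div_assoc]
        exact div_le_div_of_nonneg_right h1.le (by positivity)) hyp
    refine ⟨a, ha, i1, i2, i3.trans (mul_le_mul_of_nonneg_right ?_ hm0.le),
      i4.trans (mul_le_mul_of_nonneg_right ?_ hm0.le)⟩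
    · have : 2 * (η * κ / 8) / κ = η / 4 := by field_simp; ring
      linarith
    · have : 4 * (η * κ / 8) / κ = η / 2 := by field_simp; ring
      linarith
  obtain ⟨a, ha, i1, -, -, i4⟩ := main c hPm
  obtain ⟨a', ha', -, j2, j3, -⟩ := main (c + -(t • z)) (by rw [cube_vol, hPm])
  rw [neg_add_cancel_right] at j2 j3
  have hβi : IntegrableOn β (cube b c r) :=
    (hβ.integrableOn_isCompact (isCompact_closedBall c _)).mono_set (sub_ball b c hr)
  have := H28Bmo.combine hm0 hPm hβi ha ha' hη2 i1 j2 i4 j3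
  linarith

end Pool.Agent.Results.MP_9d555c_an.Yes
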